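import Pool.Agent.H.MP_4451bf_co.B

namespace Pool.Agent.Results.MP_4451bf_co.No

open Pool.Agent.H.MP_4451bf_co

theorem result (c : ℝ) (hc : 0 < c) :
    ∃ (V : Type) (_ : Fintype V) (G : SimpleGraph V) (k : ℕ),
      1 ≤ k ∧ (∃ K : Finset V, G.IsNClique k K) ∧
      (∃ p ∈ Set.Icc (0 : ℝ) 1, prob G p = 1 / 2) ∧
      ∀ p ∈ Set.Icc (0 : ℝ) 1, prob G p = 1 / 2 → p < c * √(k / Fintype.card V) :=
  main c hc

end Pool.Agent.Results.MP_4451bf_co.No
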